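import Mathlib
import Pool.Agent.Run7.h699.Delta.Main

set_option autoImplicit false

/-!
# MP_d5ec8b_lc: a `Δ`-set of real numbers whose square is not a `Δ`-set

For every set `K` with at least `ℵ₂` elements there is a forcing notion `P` with the countable chain
condition such that every condition forces: there are pairwise different real numbers `X e`,
`e ∈ K`, such that the set `X = {X e : e ∈ K}` is a `Q`-set and a `Δ`-set, and the subspace `X × X`
of the plane is not a `Δ`-set. So it is consistent with ZFC that the square of a `Δ`-set (even of a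
`Q`-set) of real numbers is not a `Δ`-set, which answers Q1 positively.

The definitions (`IsReal`, `RealNe`, `IsQSet`, `IsDeltaSet`, `IsDeltaSquare`, `CCC`) are those of
`Pool/Agent/Run7/h699/Delta/Defs.lean`; the connectives of the forcing language (`fnot`, `fand`,
`fall`, `fimp`, `fex`, `fground`) and `meets` are those of `Pool/Agent/Helper669/Forcing.lean`.
-/

namespace Pool.Agent.Results.MP_d5ec8b_lc.SquareNotDelta

open Cardinal Pool.Agent.Helper669.Forcing Run7.h699.Delta

theorem result (K : Type) (hK : aleph 2 ≤ #K) :
    ∃ (P : Type) (_ : Preorder P), Nonempty P ∧ CCC P ∧ ∀ p : P,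
      p ∈ fex fun X : K → RName P =>
        fand (fall fun e => IsReal (X e))
          (fand (fall fun e => fall fun e' => fall fun _ : e ≠ e' => RealNe (X e) (X e'))
            (fand (IsQSet X) (fand (IsDeltaSet X) (fnot (IsDeltaSquare X))))) := by
  refine ⟨Cd K, inferInstance, ⟨⟨∅, Set.finite_empty, ⟨by simp, by simp, by simp, by simp⟩⟩⟩, ccc,
    fun p => mem_fex.2 fun q _ => ⟨q, le_rfl, X, ?_⟩⟩
  exact ⟨fun e => isReal e q, fun e e' h => realNe h q, isQSet q, isDeltaSet q,
    not_isDeltaSquare hK q⟩

end Pool.Agent.Results.MP_d5ec8b_lc.SquareNotDelta
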